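import Mathlib
import Pool.Agent.H13R3.EM.Defs

set_option autoImplicit false

open Finset MeasureTheory

namespace Pool.Agent.H446R3.EM

open Pool.Agent.H13R3.EM Pool.Agent.H469R10.HO

/-- Abel summation -/
lemma abel (a G : ℕ → ℝ) (N : ℕ) :
    ∑ k ∈ Icc 1 N, a k * G k =
      (∑ k ∈ Icc 1 N, a k) * G (N + 1) +
        ∑ k ∈ Icc 1 N, (∑ j ∈ Icc 1 k, a j) * (G k - G (k + 1)) := by
  induction N with
  | zero => simp
  | succ N ih =>
    have e1 : ∑ k ∈ Icc 1 (N + 1), a k * G k = ∑ k ∈ Icc 1 N, a k * G k + a (N + 1) * G (N + 1) :=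
      Finset.sum_Icc_succ_top (by omega) _
    have e2 : ∑ k ∈ Icc 1 (N + 1), a k = ∑ k ∈ Icc 1 N, a k + a (N + 1) :=
      Finset.sum_Icc_succ_top (by omega) _
    have e3 : ∑ k ∈ Icc 1 (N + 1), (∑ j ∈ Icc 1 k, a j) * (G k - G (k + 1)) =
        ∑ k ∈ Icc 1 N, (∑ j ∈ Icc 1 k, a j) * (G k - G (k + 1)) +
          (∑ j ∈ Icc 1 (N + 1), a j) * (G (N + 1) - G (N + 1 + 1)) :=
      Finset.sum_Icc_succ_top (by omega) _
    rw [e1, e3, e2, ih]
    ring

lemma rpow_diff {θ x : ℝ} (hθ : 0 ≤ θ) (hx : 0 < x) :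
    x ^ (-θ) - (x + 1) ^ (-θ) ≤ θ * x ^ (-θ - 1) := by
  have h1 : (x + 1) ^ (-θ) = x ^ (-θ) * (1 + 1 / x) ^ (-θ) := by
    rw [← Real.mul_rpow hx.le (by positivity)]
    congr 1
    field_simp
  have h2 : 1 - θ / x ≤ (1 + 1 / x) ^ (-θ) := by
    have hp : 0 < 1 + 1 / x := by positivity
    rw [Real.rpow_def_of_pos hp]
    have h3 := Real.add_one_le_exp (Real.log (1 + 1 / x) * -θ)
    have h4 : Real.log (1 + 1 / x) ≤ 1 / x := by
      have := Real.log_le_sub_one_of_pos hp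
      linarith
    have h5 : Real.log (1 + 1 / x) * θ ≤ 1 / x * θ := mul_le_mul_of_nonneg_right h4 hθ
    have h6 : 1 / x * θ = θ / x := by ring
    linarith
  have h7 : x ^ (-θ - 1) = x ^ (-θ) / x := by
    rw [Real.rpow_sub hx, Real.rpow_one]
  have h8 : 0 < x ^ (-θ) := Real.rpow_pos_of_pos hx _
  rw [h1, h7]
  have h9 : x ^ (-θ) * (1 - θ / x) ≤ x ^ (-θ) * (1 + 1 / x) ^ (-θ) :=
    mul_le_mul_of_nonneg_left h2 h8.le
  have h10 : θ * (x ^ (-θ) / x) = x ^ (-θ) * (θ / x) := by ring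
  rw [h10]
  nlinarith

/-- summability from a bound for the partial sums -/
lemma summable_of_partial (b : ℕ → ℝ) (hb : ∀ n, 0 ≤ b n) (C β θ : ℝ) (hC : 0 ≤ C) (hβ : 0 ≤ β)
    (hθ : β < θ) (hB : ∀ N : ℕ, ∑ k ∈ Icc 1 N, b k ≤ C * ((N : ℝ) + 1) ^ β) :
    Summable (fun n : ℕ => b (n + 1) * ((n + 1 : ℕ) : ℝ) ^ (-θ)) := by
  have hθ0 : 0 < θ := lt_of_le_of_lt hβ hθ
  have hs : Summable (fun n : ℕ => ((n + 1 : ℕ) : ℝ) ^ (β - θ - 1)) := by
    have := (Real.summable_nat_rpow (p := β - θ - 1)).2 (by linarith)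
    exact (summable_nat_add_iff 1).2 this
  set K := ∑' n : ℕ, ((n + 1 : ℕ) : ℝ) ^ (β - θ - 1) with hK
  refine summable_of_sum_range_le (c := C + C * 2 ^ β * θ * K) (fun n => by
    have := hb (n + 1); positivity) ?_
  intro N
  have e0 : ∑ n ∈ range N, b (n + 1) * ((n + 1 : ℕ) : ℝ) ^ (-θ) =
      ∑ k ∈ Icc 1 N, b k * (k : ℝ) ^ (-θ) := by
    rw [Finset.range_eq_Ico, Finset.sum_Ico_add' (fun k => b k * (k : ℝ) ^ (-θ)) 0 N 1]
    congr 1
  rw [e0, abel b (fun k => (k : ℝ) ^ (-θ)) N]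
  have h1 : (∑ k ∈ Icc 1 N, b k) * ((N + 1 : ℕ) : ℝ) ^ (-θ) ≤ C := by
    have hpos : 0 < ((N + 1 : ℕ) : ℝ) ^ (-θ) := Real.rpow_pos_of_pos (by positivity) _
    calc (∑ k ∈ Icc 1 N, b k) * ((N + 1 : ℕ) : ℝ) ^ (-θ)
        ≤ (C * ((N : ℝ) + 1) ^ β) * ((N + 1 : ℕ) : ℝ) ^ (-θ) :=
          mul_le_mul_of_nonneg_right (hB N) hpos.le
      _ = C * (((N : ℝ) + 1) ^ (β - θ)) := by
          push_cast
          rw [mul_assoc, ← Real.rpow_add (by positivity)]
          ring_nf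
      _ ≤ C * 1 := by
          refine mul_le_mul_of_nonneg_left ?_ hC
          exact Real.rpow_le_one_of_one_le_of_nonpos (by linarith [Nat.cast_nonneg (α := ℝ) N]) (by linarith)
      _ = C := by ring
  have h2 : ∑ k ∈ Icc 1 N, (∑ j ∈ Icc 1 k, b j) * ((k : ℝ) ^ (-θ) - ((k + 1 : ℕ) : ℝ) ^ (-θ)) ≤
      C * 2 ^ β * θ * K := by
    have h3 : ∀ k ∈ Icc 1 N, (∑ j ∈ Icc 1 k, b j) * ((k : ℝ) ^ (-θ) - ((k + 1 : ℕ) : ℝ) ^ (-θ)) ≤
        C * 2 ^ β * θ * (k : ℝ) ^ (β - θ - 1) := by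
      intro k hk
      have hk1 : 1 ≤ k := (Finset.mem_Icc.1 hk).1
      have hk0 : (0 : ℝ) < k := by exact_mod_cast hk1
      have hk1' : (1 : ℝ) ≤ k := by exact_mod_cast hk1
      have h4 := rpow_diff hθ0.le hk0
      have h5 : (0 : ℝ) ≤ ∑ j ∈ Icc 1 k, b j := Finset.sum_nonneg (fun j _ => hb j)
      have h6 : ∑ j ∈ Icc 1 k, b j ≤ C * (2 * k) ^ β := by
        refine (hB k).trans (mul_le_mul_of_nonneg_left ?_ hC)
        exact Real.rpow_le_rpow (by positivity) (by linarith) hβ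
      push_cast
      calc (∑ j ∈ Icc 1 k, b j) * ((k : ℝ) ^ (-θ) - ((k : ℝ) + 1) ^ (-θ))
          ≤ (∑ j ∈ Icc 1 k, b j) * (θ * (k : ℝ) ^ (-θ - 1)) := mul_le_mul_of_nonneg_left h4 h5
        _ ≤ (C * (2 * k) ^ β) * (θ * (k : ℝ) ^ (-θ - 1)) := by
            refine mul_le_mul_of_nonneg_right h6 ?_
            positivity
        _ = C * 2 ^ β * θ * ((k : ℝ) ^ β * (k : ℝ) ^ (-θ - 1)) := by
            rw [Real.mul_rpow (by norm_num) hk0.le]; ring
        _ = C * 2 ^ β * θ * (k : ℝ) ^ (β - θ - 1) := by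
            rw [← Real.rpow_add hk0]; ring_nf
    refine (Finset.sum_le_sum h3).trans ?_
    rw [← Finset.mul_sum]
    refine mul_le_mul_of_nonneg_left ?_ (by positivity)
    have e1 : ∑ k ∈ Icc 1 N, (k : ℝ) ^ (β - θ - 1) =
        ∑ n ∈ range N, ((n + 1 : ℕ) : ℝ) ^ (β - θ - 1) := by
      rw [Finset.range_eq_Ico, Finset.sum_Ico_add' (fun k : ℕ => (k : ℝ) ^ (β - θ - 1)) 0 N 1]
      congr 1
    rw [e1]
    exact hs.sum_le_tsum _ (fun n _ => by positivity)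
  exact add_le_add h1 h2

/-- integral of the square of a summatory function -/
lemma EE_floor (a : ℕ → ℝ) (n : ℕ) {x : ℝ} (h1 : (n : ℝ) ≤ x) (h2 : x < n + 1) :
    EE a x = ∑ k ∈ Icc 1 n, a k := by
  unfold EE
  rw [(Nat.floor_eq_iff ((Nat.cast_nonneg n).trans h1)).2 ⟨h1, h2⟩]

lemma EE_int_one (a : ℕ → ℝ) (n : ℕ) :
    IntervalIntegrable (fun x => (EE a x) ^ 2) volume (n : ℝ) ((n + 1 : ℕ) : ℝ) ∧
    ∫ x in (n : ℝ)..((n + 1 : ℕ) : ℝ), (EE a x) ^ 2 = (∑ k ∈ Icc 1 n, a k) ^ 2 := by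
  have hle : (n : ℝ) ≤ ((n + 1 : ℕ) : ℝ) := by push_cast; linarith
  have hc : Set.EqOn (fun x => (EE a x) ^ 2) (fun _ => (∑ k ∈ Icc 1 n, a k) ^ 2)
      (Set.Ioo (n : ℝ) ((n + 1 : ℕ) : ℝ)) := by
    intro x hx
    have hx2 : x < n + 1 := by have := hx.2; push_cast at this; exact this
    simp only
    rw [EE_floor a n hx.1.le hx2]
  constructor
  · rw [intervalIntegrable_iff_integrableOn_Ioo_of_le hle]
    refine IntegrableOn.congr_fun ?_ hc.symm measurableSet_Ioo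
    exact integrableOn_const (hs := measure_Ioo_lt_top.ne)
  · rw [intervalIntegral.integral_of_le hle, integral_Ioc_eq_integral_Ioo,
      setIntegral_congr_fun measurableSet_Ioo hc]
    simp

lemma EE_int (a : ℕ → ℝ) (N : ℕ) :
    ∫ x in (1 : ℝ)..((N + 1 : ℕ) : ℝ), (EE a x) ^ 2 = ∑ n ∈ Icc 1 N, (∑ k ∈ Icc 1 n, a k) ^ 2 := by
  have h := intervalIntegral.sum_integral_adjacent_intervals_Ico (μ := volume)
    (f := fun x => (EE a x) ^ 2) (a := fun n : ℕ => (n : ℝ)) (m := 1) (n := N + 1) (by omega)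
    (fun k _ => (EE_int_one a k).1)
  have h1 : ((1 : ℕ) : ℝ) = 1 := by norm_num
  rw [h1] at h
  rw [← h]
  have : Icc 1 N = Ico 1 (N + 1) := by ext; simp
  rw [this]
  exact Finset.sum_congr rfl (fun k _ => (EE_int_one a k).2)

/-- the weight function -/
noncomputable def GG (c r σ t y : ℝ) : ℝ :=
  y ^ (-σ) * Real.sin (c * y ^ r * t / 2) ^ 2 * Real.cos (c * y ^ r)

lemma GG_deriv {c r σ t y : ℝ} (hy : 0 < y) :
    HasDerivAt (GG c r σ t)
      (-σ * y ^ (-σ - 1) * Real.sin (c * y ^ r * t / 2) ^ 2 * Real.cos (c * y ^ r) +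
        y ^ (-σ) * (2 * Real.sin (c * y ^ r * t / 2) * Real.cos (c * y ^ r * t / 2)) *
          (c * (r * y ^ (r - 1)) * t / 2) * Real.cos (c * y ^ r) -
        y ^ (-σ) * Real.sin (c * y ^ r * t / 2) ^ 2 * Real.sin (c * y ^ r) *
          (c * (r * y ^ (r - 1)))) y := by
  have h1 : HasDerivAt (fun x : ℝ => x ^ (-σ)) (-σ * y ^ (-σ - 1)) y :=
    Real.hasDerivAt_rpow_const (Or.inl hy.ne')
  have h2 : HasDerivAt (fun x : ℝ => c * x ^ r) (c * (r * y ^ (r - 1))) y :=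
    (Real.hasDerivAt_rpow_const (Or.inl hy.ne')).const_mul c
  have h3 := ((h2.mul_const t).div_const 2).sin
  have h4 := h3.pow 2
  have h5 := h2.cos
  have h6 := (h1.mul h4).mul h5
  refine HasDerivAt.congr_deriv (f := GG c r σ t) (by exact h6) ?_
  simp only [Pi.mul_apply, Pi.pow_apply]
  push_cast
  ring

lemma GG_deriv_bound {c r σ t y : ℝ} (hc : 0 < c) (hr : 0 < r) (hσ : 0 < σ) (ht : 0 < t)
    (hy : 1 ≤ y) :
    |(-σ * y ^ (-σ - 1) * Real.sin (c * y ^ r * t / 2) ^ 2 * Real.cos (c * y ^ r) +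
        y ^ (-σ) * (2 * Real.sin (c * y ^ r * t / 2) * Real.cos (c * y ^ r * t / 2)) *
          (c * (r * y ^ (r - 1)) * t / 2) * Real.cos (c * y ^ r) -
        y ^ (-σ) * Real.sin (c * y ^ r * t / 2) ^ 2 * Real.sin (c * y ^ r) *
          (c * (r * y ^ (r - 1))))| ≤
      (σ * c ^ 2 + c ^ 2 * r + c ^ 3 * r) * t ^ 2 * y ^ (-(σ + 1 - 3 * r)) := by
  have hy0 : 0 < y := by linarith
  set X := c * y ^ r * t / 2 with hX
  have hyr : 0 < y ^ r := Real.rpow_pos_of_pos hy0 _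
  have hyr1 : 1 ≤ y ^ r := Real.one_le_rpow hy hr.le
  have hX0 : 0 ≤ X := by positivity
  have hs : |Real.sin X| ≤ X := by
    have := Real.abs_sin_le_abs (x := X)
    rwa [abs_of_nonneg hX0] at this
  have hs2 : Real.sin X ^ 2 ≤ X ^ 2 := by
    rw [← sq_abs]
    exact pow_le_pow_left₀ (abs_nonneg _) hs 2
  have hcos1 : |Real.cos (c * y ^ r)| ≤ 1 := Real.abs_cos_le_one _
  have hcos2 : |Real.cos X| ≤ 1 := Real.abs_cos_le_one _
  have hsin1 : |Real.sin (c * y ^ r)| ≤ 1 := Real.abs_sin_le_one _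
  have hA : 0 < y ^ (-σ) := Real.rpow_pos_of_pos hy0 _
  have e1 : y ^ (-σ - 1) = y ^ (-σ) / y := by rw [Real.rpow_sub hy0, Real.rpow_one]
  have e2 : y ^ (r - 1) = y ^ r / y := by rw [Real.rpow_sub hy0, Real.rpow_one]
  have e3 : y ^ (-(σ + 1 - 3 * r)) = y ^ (-σ) / y * (y ^ r) ^ 3 := by
    rw [← e1, ← Real.rpow_natCast (y ^ r) 3, ← Real.rpow_mul hy0.le, ← Real.rpow_add hy0]
    congr 1
    push_cast
    ring
  rw [e1, e2, e3]
  set Y := y ^ r with hY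
  set A := y ^ (-σ) with hAA
  have hb1 : |(-σ * (A / y) * Real.sin X ^ 2 * Real.cos (c * Y))| ≤ σ * (A / y) * X ^ 2 := by
    rw [abs_mul, abs_mul, abs_mul, abs_neg, abs_of_pos hσ, abs_of_pos (by positivity : 0 < A / y),
      abs_of_nonneg (sq_nonneg (Real.sin X))]
    calc σ * (A / y) * Real.sin X ^ 2 * |Real.cos (c * Y)| ≤ σ * (A / y) * Real.sin X ^ 2 * 1 := by
          refine mul_le_mul_of_nonneg_left hcos1 ?_
          positivity
      _ ≤ σ * (A / y) * X ^ 2 := by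
          rw [mul_one]
          exact mul_le_mul_of_nonneg_left hs2 (by positivity)
  have hb2 : |A * (2 * Real.sin X * Real.cos X) * (c * (r * (Y / y)) * t / 2) * Real.cos (c * Y)| ≤
      A * (2 * X) * (c * (r * (Y / y)) * t / 2) := by
    rw [abs_mul, abs_mul, abs_mul, abs_mul, abs_mul, abs_of_pos hA,
      abs_of_pos (by positivity : 0 < c * (r * (Y / y)) * t / 2), abs_of_pos (by norm_num : (0 : ℝ) < 2)]
    have h1 : 2 * |Real.sin X| * |Real.cos X| ≤ 2 * X := by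
      nlinarith [abs_nonneg (Real.sin X), abs_nonneg (Real.cos X)]
    calc A * (2 * |Real.sin X| * |Real.cos X|) * (c * (r * (Y / y)) * t / 2) * |Real.cos (c * Y)|
        ≤ A * (2 * |Real.sin X| * |Real.cos X|) * (c * (r * (Y / y)) * t / 2) * 1 := by
          refine mul_le_mul_of_nonneg_left hcos1 ?_
          positivity
      _ ≤ A * (2 * X) * (c * (r * (Y / y)) * t / 2) := by
          rw [mul_one]
          refine mul_le_mul_of_nonneg_right ?_ (by positivity)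
          exact mul_le_mul_of_nonneg_left h1 hA.le
  have hb3 : |A * Real.sin X ^ 2 * Real.sin (c * Y) * (c * (r * (Y / y)))| ≤
      A * X ^ 2 * (c * (r * (Y / y))) := by
    rw [abs_mul, abs_mul, abs_mul, abs_of_pos hA,
      abs_of_pos (by positivity : 0 < c * (r * (Y / y))), abs_of_nonneg (sq_nonneg (Real.sin X))]
    refine mul_le_mul_of_nonneg_right ?_ (by positivity)
    calc A * Real.sin X ^ 2 * |Real.sin (c * Y)| ≤ A * Real.sin X ^ 2 * 1 := by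
          refine mul_le_mul_of_nonneg_left hsin1 ?_
          positivity
      _ ≤ A * X ^ 2 := by
          rw [mul_one]
          exact mul_le_mul_of_nonneg_left hs2 hA.le
  have htot := (abs_sub (-σ * (A / y) * Real.sin X ^ 2 * Real.cos (c * Y) +
      A * (2 * Real.sin X * Real.cos X) * (c * (r * (Y / y)) * t / 2) * Real.cos (c * Y))
      (A * Real.sin X ^ 2 * Real.sin (c * Y) * (c * (r * (Y / y)))))
  have htot2 := abs_add_le (-σ * (A / y) * Real.sin X ^ 2 * Real.cos (c * Y))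
      (A * (2 * Real.sin X * Real.cos X) * (c * (r * (Y / y)) * t / 2) * Real.cos (c * Y))
  have hY3 : Y ^ 2 ≤ Y ^ 3 := by
    have : 0 ≤ Y ^ 2 * (Y - 1) := mul_nonneg (sq_nonneg _) (by linarith)
    nlinarith
  have hAy : 0 < A / y := by positivity
  have hfin : σ * (A / y) * X ^ 2 + A * (2 * X) * (c * (r * (Y / y)) * t / 2) +
      A * X ^ 2 * (c * (r * (Y / y))) ≤
      (σ * c ^ 2 + c ^ 2 * r + c ^ 3 * r) * t ^ 2 * (A / y * Y ^ 3) := by
    have e4 : σ * (A / y) * X ^ 2 + A * (2 * X) * (c * (r * (Y / y)) * t / 2) +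
      A * X ^ 2 * (c * (r * (Y / y))) =
      t ^ 2 * (A / y) * ((σ * c ^ 2 / 4 + c ^ 2 * r / 2) * Y ^ 2 + c ^ 3 * r / 4 * Y ^ 3) := by
      rw [hX]; ring
    rw [e4]
    have h1 : (σ * c ^ 2 / 4 + c ^ 2 * r / 2) * Y ^ 2 + c ^ 3 * r / 4 * Y ^ 3 ≤
        (σ * c ^ 2 + c ^ 2 * r + c ^ 3 * r) * Y ^ 3 := by
      have h2 : (σ * c ^ 2 / 4 + c ^ 2 * r / 2) * Y ^ 2 ≤ (σ * c ^ 2 / 4 + c ^ 2 * r / 2) * Y ^ 3 :=
        mul_le_mul_of_nonneg_left hY3 (by positivity)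
      have h3 : 0 ≤ (σ * c ^ 2 * (3 / 4) + c ^ 2 * r / 2 + c ^ 3 * r * (3 / 4)) * Y ^ 3 := by positivity
      nlinarith
    calc t ^ 2 * (A / y) * ((σ * c ^ 2 / 4 + c ^ 2 * r / 2) * Y ^ 2 + c ^ 3 * r / 4 * Y ^ 3)
        ≤ t ^ 2 * (A / y) * ((σ * c ^ 2 + c ^ 2 * r + c ^ 3 * r) * Y ^ 3) :=
          mul_le_mul_of_nonneg_left h1 (by positivity)
      _ = _ := by ring
  linarith

lemma GG_diff {c r σ t : ℝ} (hc : 0 < c) (hr : 0 < r) (hσ : 0 < σ) (ht : 0 < t)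
    (hθ : 0 ≤ σ + 1 - 3 * r) {x : ℝ} (hx : 1 ≤ x) :
    |GG c r σ t x - GG c r σ t (x + 1)| ≤
      (σ * c ^ 2 + c ^ 2 * r + c ^ 3 * r) * t ^ 2 * x ^ (-(σ + 1 - 3 * r)) := by
  have h := Convex.norm_image_sub_le_of_norm_hasDerivWithin_le (𝕜 := ℝ) (f := GG c r σ t)
    (f' := fun y => -σ * y ^ (-σ - 1) * Real.sin (c * y ^ r * t / 2) ^ 2 * Real.cos (c * y ^ r) +
        y ^ (-σ) * (2 * Real.sin (c * y ^ r * t / 2) * Real.cos (c * y ^ r * t / 2)) *
          (c * (r * y ^ (r - 1)) * t / 2) * Real.cos (c * y ^ r) -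
        y ^ (-σ) * Real.sin (c * y ^ r * t / 2) ^ 2 * Real.sin (c * y ^ r) *
          (c * (r * y ^ (r - 1))))
    (C := (σ * c ^ 2 + c ^ 2 * r + c ^ 3 * r) * t ^ 2 * x ^ (-(σ + 1 - 3 * r)))
    (s := Set.Icc x (x + 1)) (x := x + 1) (y := x)
    (fun y hy => (GG_deriv (by linarith [hy.1])).hasDerivWithinAt)
    (fun y hy => by
      rw [Real.norm_eq_abs]
      refine (GG_deriv_bound hc hr hσ ht (hx.trans hy.1)).trans ?_
      refine mul_le_mul_of_nonneg_left ?_ (by positivity)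
      exact Real.rpow_le_rpow_of_nonpos (by linarith) hy.1 (by linarith))
    (convex_Icc _ _) (by constructor <;> linarith) (by constructor <;> linarith)
  rw [Real.norm_eq_abs, Real.norm_eq_abs] at h
  have h1 : |x - (x + 1)| = 1 := by
    rw [show x - (x + 1) = -1 by ring]; simp
  rwa [h1, mul_one] at h

/-- the boundary term tends to zero -/
lemma bdry (σ : ℝ) (hσ : 0 < σ) (α : ℕ → ℝ) (hα : Summable (fun n => |α n|)) :
    Filter.Tendsto (fun N : ℕ => |∑ k ∈ Icc 1 N, α k * (k : ℝ) ^ σ| * ((N + 1 : ℕ) : ℝ) ^ (-σ))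
      Filter.atTop (nhds 0) := by
  have hD : Filter.Tendsto (fun N : ℕ => ∑' k : ℕ,
      (if k ≤ N then |α k| * ((k : ℝ) / ((N + 1 : ℕ) : ℝ)) ^ σ else 0)) Filter.atTop
      (nhds (∑' k : ℕ, (0 : ℝ))) := by
    refine tendsto_tsum_of_dominated_convergence (bound := fun k => |α k|) hα ?_ ?_
    · intro k
      have h1 : Filter.Tendsto (fun N : ℕ => |α k| * ((k : ℝ) / ((N + 1 : ℕ) : ℝ)) ^ σ)
          Filter.atTop (nhds (|α k| * (0 : ℝ) ^ σ)) := by
        refine Filter.Tendsto.const_mul _ ?_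
        refine Filter.Tendsto.rpow_const ?_ (Or.inr hσ.le)
        have h2 : Filter.Tendsto (fun N : ℕ => ((N + 1 : ℕ) : ℝ)) Filter.atTop Filter.atTop := by
          refine tendsto_natCast_atTop_atTop.comp (Filter.tendsto_add_atTop_nat 1)
        exact Filter.Tendsto.div_atTop tendsto_const_nhds h2
      rw [Real.zero_rpow hσ.ne', mul_zero] at h1
      refine squeeze_zero (fun N => by positivity) (fun N => ?_) h1
      split_ifs
      · exact le_refl _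
      · positivity
    · refine Filter.Eventually.of_forall (fun N k => ?_)
      rw [Real.norm_eq_abs]
      split_ifs with h
      · rw [abs_mul, abs_abs, abs_of_nonneg (by positivity : (0 : ℝ) ≤ ((k : ℝ) / ((N + 1 : ℕ) : ℝ)) ^ σ)]
        have h3 : ((k : ℝ) / ((N + 1 : ℕ) : ℝ)) ^ σ ≤ 1 := by
          refine Real.rpow_le_one (by positivity) ?_ hσ.le
          rw [div_le_one (by positivity)]
          have : (k : ℝ) ≤ N := by exact_mod_cast h
          push_cast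
          linarith
        calc |α k| * ((k : ℝ) / ((N + 1 : ℕ) : ℝ)) ^ σ ≤ |α k| * 1 :=
              mul_le_mul_of_nonneg_left h3 (abs_nonneg _)
          _ = |α k| := mul_one _
      · simp
  rw [tsum_zero] at hD
  refine squeeze_zero (fun N => by positivity) (fun N => ?_) hD
  have hpos : (0 : ℝ) < ((N + 1 : ℕ) : ℝ) := by positivity
  have hfin : ∑' k : ℕ, (if k ≤ N then |α k| * ((k : ℝ) / ((N + 1 : ℕ) : ℝ)) ^ σ else 0) =
      ∑ k ∈ range (N + 1), |α k| * ((k : ℝ) / ((N + 1 : ℕ) : ℝ)) ^ σ := by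
    rw [tsum_eq_sum (s := range (N + 1)) (by
      intro k hk
      rw [if_neg]
      simp only [Finset.mem_range] at hk
      omega)]
    refine Finset.sum_congr rfl (fun k hk => ?_)
    rw [if_pos]
    simp only [Finset.mem_range] at hk
    omega
  rw [hfin]
  calc |∑ k ∈ Icc 1 N, α k * (k : ℝ) ^ σ| * ((N + 1 : ℕ) : ℝ) ^ (-σ)
      ≤ (∑ k ∈ Icc 1 N, |α k * (k : ℝ) ^ σ|) * ((N + 1 : ℕ) : ℝ) ^ (-σ) :=
        mul_le_mul_of_nonneg_right (Finset.abs_sum_le_sum_abs _ _) (by positivity)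
    _ = ∑ k ∈ Icc 1 N, |α k| * ((k : ℝ) / ((N + 1 : ℕ) : ℝ)) ^ σ := by
        rw [Finset.sum_mul]
        refine Finset.sum_congr rfl (fun k _ => ?_)
        rw [abs_mul, abs_of_nonneg (by positivity : (0 : ℝ) ≤ (k : ℝ) ^ σ),
          Real.div_rpow (by positivity) hpos.le, Real.rpow_neg hpos.le]
        ring
    _ ≤ ∑ k ∈ range (N + 1), |α k| * ((k : ℝ) / ((N + 1 : ℕ) : ℝ)) ^ σ := by
        refine Finset.sum_le_sum_of_subset_of_nonneg ?_ (fun k _ _ => by positivity)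
        intro k hk
        simp only [Finset.mem_Icc, Finset.mem_range] at hk ⊢
        omega

lemma second_diff (u t : ℝ) : Real.cos (u * (1 + t)) + Real.cos (u * (1 - t)) - 2 * Real.cos (u * 1) =
    -4 * (Real.sin (u * t / 2) ^ 2 * Real.cos u) := by
  have h1 : Real.cos (u * (1 + t)) = Real.cos u * Real.cos (u * t) - Real.sin u * Real.sin (u * t) := by
    rw [← Real.cos_add]; ring_nf
  have h2 : Real.cos (u * (1 - t)) = Real.cos u * Real.cos (u * t) + Real.sin u * Real.sin (u * t) := by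
    rw [← Real.cos_sub]; ring_nf
  have h3 : Real.cos (u * t) = 1 - 2 * Real.sin (u * t / 2) ^ 2 := by
    have := Real.cos_two_mul (u * t / 2)
    have h4 := Real.sin_sq_add_cos_sq (u * t / 2)
    rw [show 2 * (u * t / 2) = u * t by ring] at this
    linarith
  rw [h1, h2, mul_one, h3]
  ring

theorem taskA : TaskA := by
  intro c lam σ κ α hc hlam hσ hκ hlt hα hE
  obtain ⟨C0, hC0⟩ := hE
  set C := |C0| with hC
  have hCn : 0 ≤ C := abs_nonneg _
  have hlam0 : 0 < lam := by linarith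
  set r := 1 / lam with hr
  have hr0 : 0 < r := by positivity
  have h3r : 3 / lam = 3 * r := by rw [hr]; ring
  rw [h3r] at hlt
  set θ := σ + 1 - 3 * r with hθ
  have hθ1 : 1 + κ < θ := by rw [hθ]; linarith
  set δ := θ - 1 - κ with hδ
  have hδ0 : 0 < δ := by rw [hδ]; linarith
  set a : ℕ → ℝ := fun n => α n * (n : ℝ) ^ σ with ha
  set Es : ℕ → ℝ := fun n => ∑ k ∈ Icc 1 n, a k with hEs
  -- mean square
  have hms : ∀ N : ℕ, ∑ k ∈ Icc 1 N, (Es k) ^ 2 ≤ C * ((N : ℝ) + 1) ^ (1 + 2 * κ) := by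
    intro N
    have h := hC0 ((N + 1 : ℕ) : ℝ) (by push_cast; linarith [Nat.cast_nonneg (α := ℝ) N])
    rw [EE_int] at h
    refine h.trans ?_
    push_cast
    refine mul_le_mul_of_nonneg_right (le_abs_self _) (by positivity)
  have hs1 : Summable (fun n : ℕ => (Es (n + 1)) ^ 2 * ((n + 1 : ℕ) : ℝ) ^ (-(1 + 2 * κ + δ))) :=
    summable_of_partial (fun n => (Es n) ^ 2) (fun n => sq_nonneg _) C (1 + 2 * κ) _ hCn
      (by linarith) (by linarith) hms
  have hs2 : Summable (fun n : ℕ => ((n + 1 : ℕ) : ℝ) ^ (-(1 + δ))) := by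
    have := (Real.summable_nat_rpow (p := -(1 + δ))).2 (by linarith)
    exact (summable_nat_add_iff 1).2 this
  set K := ∑' n : ℕ, ((Es (n + 1)) ^ 2 * ((n + 1 : ℕ) : ℝ) ^ (-(1 + 2 * κ + δ)) +
    ((n + 1 : ℕ) : ℝ) ^ (-(1 + δ))) with hK
  have hsum : ∀ N : ℕ, ∑ k ∈ Icc 1 N, |Es k| * (k : ℝ) ^ (-θ) ≤ K := by
    intro N
    have e0 : ∑ k ∈ Icc 1 N, |Es k| * (k : ℝ) ^ (-θ) =
        ∑ n ∈ range N, |Es (n + 1)| * ((n + 1 : ℕ) : ℝ) ^ (-θ) := by
      rw [Finset.range_eq_Ico, Finset.sum_Ico_add' (fun k : ℕ => |Es k| * (k : ℝ) ^ (-θ)) 0 N 1]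
      congr 1
    rw [e0]
    refine le_trans (Finset.sum_le_sum (fun n _ => ?_))
      ((hs1.add hs2).sum_le_tsum (range N) (fun n _ => by positivity))
    have hpos : (0 : ℝ) < ((n + 1 : ℕ) : ℝ) := by positivity
    set z := ((n + 1 : ℕ) : ℝ) with hz
    have h1 : z ^ (-θ) = z ^ (-(1 + 2 * κ + δ) / 2) * z ^ (-(1 + δ) / 2) := by
      rw [← Real.rpow_add hpos]
      congr 1
      rw [hδ]; ring
    have h2 : z ^ (-(1 + 2 * κ + δ)) = (z ^ (-(1 + 2 * κ + δ) / 2)) ^ 2 := by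
      rw [← Real.rpow_natCast, ← Real.rpow_mul hpos.le]
      congr 1
      push_cast; ring
    have h3 : z ^ (-(1 + δ)) = (z ^ (-(1 + δ) / 2)) ^ 2 := by
      rw [← Real.rpow_natCast, ← Real.rpow_mul hpos.le]
      congr 1
      push_cast; ring
    rw [h1, h2, h3]
    set p := z ^ (-(1 + 2 * κ + δ) / 2)
    set q := z ^ (-(1 + δ) / 2)
    have h4 : (Es (n + 1)) ^ 2 = |Es (n + 1)| ^ 2 := (sq_abs _).symm
    rw [h4]
    nlinarith [sq_nonneg (|Es (n + 1)| * p - q), sq_nonneg (|Es (n + 1)| * p + q),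
      sq_nonneg (|Es (n + 1)| * p), sq_nonneg q]
  set C1 := σ * c ^ 2 + c ^ 2 * r + c ^ 3 * r with hC1
  have hC10 : 0 < C1 := by positivity
  refine ⟨4 * C1 * K, fun t ht0 ht1 => ?_⟩
  -- the three series
  have hsm : ∀ x : ℝ, Summable (fun n => α n * Real.cos (uu c lam n * x)) := by
    intro x
    refine Summable.of_norm_bounded hα (fun n => ?_)
    rw [Real.norm_eq_abs, abs_mul]
    calc |α n| * |Real.cos (uu c lam n * x)| ≤ |α n| * 1 :=
          mul_le_mul_of_nonneg_left (Real.abs_cos_le_one _) (abs_nonneg _)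
      _ = |α n| := mul_one _
  set φ : ℕ → ℝ := fun n => α n * Real.cos (uu c lam n * (1 + t)) +
    α n * Real.cos (uu c lam n * (1 - t)) - 2 * (α n * Real.cos (uu c lam n * 1)) with hφ
  have hφs : HasSum φ (hb c lam α (1 + t) + hb c lam α (1 - t) - 2 * hb c lam α 1) :=
    ((hsm (1 + t)).hasSum.add (hsm (1 - t)).hasSum).sub ((hsm 1).hasSum.mul_left 2)
  have hφe : ∀ n, φ n = -4 * (α n * (Real.sin (uu c lam n * t / 2) ^ 2 * Real.cos (uu c lam n))) := by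
    intro n
    have := second_diff (uu c lam n) t
    simp only [hφ]
    linear_combination (α n) * this
  have hφ0 : φ 0 = 0 := by
    rw [hφe]
    have : uu c lam 0 = 0 := by
      unfold uu
      rw [Nat.cast_zero, Real.zero_rpow (by rw [← hr]; exact hr0.ne'), mul_zero]
    rw [this]
    simp
  have hφn : ∀ n, 1 ≤ n → φ n = -4 * (a n * GG c r σ t n) := by
    intro n hn
    have hn0 : (0 : ℝ) < n := by exact_mod_cast hn
    rw [hφe]
    simp only [ha, GG, uu]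
    rw [Real.rpow_neg hn0.le, ← hr]
    have : (n : ℝ) ^ σ ≠ 0 := (Real.rpow_pos_of_pos hn0 _).ne'
    field_simp
  have htend : Filter.Tendsto (fun N : ℕ => ∑ n ∈ range (N + 1), φ n) Filter.atTop
      (nhds (hb c lam α (1 + t) + hb c lam α (1 - t) - 2 * hb c lam α 1)) :=
    hφs.tendsto_sum_nat.comp (Filter.tendsto_add_atTop_nat 1)
  have hpart : ∀ N : ℕ, |∑ n ∈ range (N + 1), φ n| ≤
      4 * (|∑ k ∈ Icc 1 N, α k * (k : ℝ) ^ σ| * ((N + 1 : ℕ) : ℝ) ^ (-σ)) +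
        4 * C1 * K * t ^ 2 := by
    intro N
    have e1 : ∑ n ∈ range (N + 1), φ n = -4 * ∑ k ∈ Icc 1 N, a k * GG c r σ t k := by
      rw [Finset.sum_range_succ', hφ0, add_zero, Finset.mul_sum]
      have e2 : ∑ k ∈ Icc 1 N, -4 * (a k * GG c r σ t k) =
          ∑ n ∈ range N, -4 * (a (n + 1) * GG c r σ t ((n + 1 : ℕ) : ℝ)) := by
        rw [Finset.range_eq_Ico, Finset.sum_Ico_add' (fun k : ℕ => -4 * (a k * GG c r σ t k)) 0 N 1]
        congr 1
      rw [e2]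
      exact Finset.sum_congr rfl (fun n _ => hφn (n + 1) (by omega))
    rw [e1, abel a (fun k => GG c r σ t k) N, abs_mul]
    have h4 : |(-4 : ℝ)| = 4 := by norm_num
    rw [h4]
    have h5 : |(∑ k ∈ Icc 1 N, a k) * GG c r σ t ((N + 1 : ℕ) : ℝ)| ≤
        |∑ k ∈ Icc 1 N, α k * (k : ℝ) ^ σ| * ((N + 1 : ℕ) : ℝ) ^ (-σ) := by
      rw [abs_mul]
      refine mul_le_mul_of_nonneg_left ?_ (abs_nonneg _)
      unfold GG
      rw [abs_mul, abs_mul, abs_of_nonneg (by positivity : (0 : ℝ) ≤ ((N + 1 : ℕ) : ℝ) ^ (-σ)),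
        abs_of_nonneg (sq_nonneg (Real.sin _))]
      have h6 := Real.sin_sq_le_one (c * ((N + 1 : ℕ) : ℝ) ^ r * t / 2)
      have h7 := Real.abs_cos_le_one (c * ((N + 1 : ℕ) : ℝ) ^ r)
      have h8 : (0 : ℝ) ≤ ((N + 1 : ℕ) : ℝ) ^ (-σ) := by positivity
      calc ((N + 1 : ℕ) : ℝ) ^ (-σ) * Real.sin (c * ((N + 1 : ℕ) : ℝ) ^ r * t / 2) ^ 2 *
            |Real.cos (c * ((N + 1 : ℕ) : ℝ) ^ r)|
          ≤ ((N + 1 : ℕ) : ℝ) ^ (-σ) * 1 * 1 := by
            refine mul_le_mul ?_ h7 (abs_nonneg _) (by positivity)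
            exact mul_le_mul_of_nonneg_left h6 h8
        _ = ((N + 1 : ℕ) : ℝ) ^ (-σ) := by ring
    have h6 : |∑ k ∈ Icc 1 N, (∑ j ∈ Icc 1 k, a j) * (GG c r σ t k - GG c r σ t ((k + 1 : ℕ) : ℝ))| ≤
        C1 * t ^ 2 * K := by
      refine (Finset.abs_sum_le_sum_abs _ _).trans ?_
      calc ∑ k ∈ Icc 1 N, |(∑ j ∈ Icc 1 k, a j) * (GG c r σ t k - GG c r σ t ((k + 1 : ℕ) : ℝ))|
          ≤ ∑ k ∈ Icc 1 N, C1 * t ^ 2 * (|Es k| * (k : ℝ) ^ (-θ)) := by
            refine Finset.sum_le_sum (fun k hk => ?_)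
            have hk1 : 1 ≤ k := (Finset.mem_Icc.1 hk).1
            have hk1' : (1 : ℝ) ≤ k := by exact_mod_cast hk1
            rw [abs_mul]
            have h7 := GG_diff hc hr0 hσ ht0 (by rw [← hθ]; linarith) hk1'
            push_cast
            calc |∑ j ∈ Icc 1 k, a j| * |GG c r σ t k - GG c r σ t ((k : ℝ) + 1)|
                ≤ |∑ j ∈ Icc 1 k, a j| * (C1 * t ^ 2 * (k : ℝ) ^ (-θ)) :=
                  mul_le_mul_of_nonneg_left h7 (abs_nonneg _)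
              _ = C1 * t ^ 2 * (|Es k| * (k : ℝ) ^ (-θ)) := by
                  simp only [hEs]; ring
        _ = C1 * t ^ 2 * ∑ k ∈ Icc 1 N, |Es k| * (k : ℝ) ^ (-θ) := by rw [Finset.mul_sum]
        _ ≤ C1 * t ^ 2 * K := mul_le_mul_of_nonneg_left (hsum N) (by positivity)
    have h7 := abs_add_le ((∑ k ∈ Icc 1 N, a k) * GG c r σ t ((N + 1 : ℕ) : ℝ))
      (∑ k ∈ Icc 1 N, (∑ j ∈ Icc 1 k, a j) * (GG c r σ t k - GG c r σ t ((k + 1 : ℕ) : ℝ)))
    nlinarith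
  have hlim := ((bdry σ hσ α hα).const_mul 4).add_const (4 * C1 * K * t ^ 2)
  rw [mul_zero, zero_add] at hlim
  exact le_of_tendsto_of_tendsto (htend.abs) hlim (Filter.Eventually.of_forall hpart)

end Pool.Agent.H446R3.EM
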